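import Pool.Agent.H.MP_600649_an.Ritt

namespace Pool.Agent.Results.MP_600649_an.LogSharp

theorem result : ∃ c : ℝ, 0 < c ∧ ∃ C₀ : ℝ, 1 ≤ C₀ ∧ ∀ C : ℝ, C₀ ≤ C →
    ∃ (X : Type) (_ : NormedAddCommGroup X) (_ : NormedSpace ℂ X) (_ : FiniteDimensional ℂ X)
      (T : X →L[ℂ] X), spectrum ℂ T ⊆ Metric.closedBall 0 1 ∧
        (∀ z : ℂ, 1 < ‖z‖ → ‖(z - 1) • resolvent T z‖ ≤ C) ∧
        ∃ n : ℕ, c * C * Real.log (1 + C) ≤ ‖T ^ n‖ :=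
  ⟨1 / 36, by norm_num, 37, by norm_num, Pool.Agent.H.MP_600649_an.main⟩

end Pool.Agent.Results.MP_600649_an.LogSharp
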